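import Mathlib

/-!
# Trees whose domination number is close to `3/2` times the lower irredundance number

The vertices of the tree `T n` are `0, ..., 7 n + 5`; the vertex `v ≥ 1` is joined to its parent
`par v < v`, which is `v - 1`, `v - 2` or `v - 5` according to `v` modulo `7`.
In block `i` (vertices `7 i + r`): `s = 7 i`, `t = 7 i + 1` are adjacent, `7 i + 2`, `7 i + 3` are
the inner vertices of pendant paths `s, 7 i + 2, 7 i + 4` and `t, 7 i + 3, 7 i + 5`, and
`7 i + 6` is adjacent to `t` and to the vertex `s` of the next block.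
-/

namespace Pool.Agent.Results.MP_180bcc_co.RatioThreeHalves

open Finset

variable {V : Type*}

/-- `w` lies in the closed neighbourhood of `v`. -/
def InNbhd (G : SimpleGraph V) (v w : V) : Prop := w = v ∨ G.Adj v w

/-- every vertex lies in the closed neighbourhood of a member of `D` -/
def Dominating (G : SimpleGraph V) (D : Finset V) : Prop := ∀ w, ∃ d ∈ D, InNbhd G d w

/-- `w` is a private neighbour of `v` with respect to `S`. -/
def Private (G : SimpleGraph V) (S : Finset V) (v w : V) : Prop :=
  InNbhd G v w ∧ ∀ u ∈ S, u ≠ v → ¬ InNbhd G u w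

/-- every member of `S` has a private neighbour with respect to `S` -/
def Irredundant (G : SimpleGraph V) (S : Finset V) : Prop := ∀ v ∈ S, ∃ w, Private G S v w

/-- `S` is irredundant and no proper superset of `S` is. -/
def MaximalIrredundant (G : SimpleGraph V) (S : Finset V) : Prop :=
  Irredundant G S ∧ ∀ S' : Finset V, S ⊂ S' → ¬ Irredundant G S'

/-- the domination number `γ(G)` -/
noncomputable def gammaNum (G : SimpleGraph V) : ℕ :=
  sInf {k | ∃ D : Finset V, Dominating G D ∧ D.card = k}

/-- the lower irredundance number `ir(G)` -/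
noncomputable def irNum (G : SimpleGraph V) : ℕ :=
  sInf {k | ∃ S : Finset V, MaximalIrredundant G S ∧ S.card = k}

/-- the parent of a vertex `v ≥ 1` of the tree -/
def par (v : ℕ) : ℕ := if v % 7 ≤ 1 then v - 1 else if v % 7 = 6 then v - 5 else v - 2

/-- the tree on `7 n + 6` vertices -/
def T (n : ℕ) : SimpleGraph (Fin (7 * n + 6)) where
  Adj v w := (v.1 = par w.1 ∧ v.1 < w.1) ∨ (w.1 = par v.1 ∧ w.1 < v.1)
  symm := ⟨by
    intro v w h
    rcases h with h | h
    · exact Or.inr h
    · exact Or.inl h⟩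
  loopless := ⟨by
    intro v h
    rcases h with h | h
    · exact absurd h.2 (lt_irrefl _)
    · exact absurd h.2 (lt_irrefl _)⟩

lemma par_lt {v : ℕ} (h : v ≠ 0) : par v < v := by
  unfold par; split_ifs <;> omega

lemma T_adj_par (n : ℕ) (v : Fin (7 * n + 6)) (h : v.1 ≠ 0) :
    (T n).Adj v ⟨par v.1, lt_trans (par_lt h) v.2⟩ := Or.inr ⟨rfl, par_lt h⟩

lemma T_connected (n : ℕ) : (T n).Connected := by
  have key : ∀ k : ℕ, ∀ v : Fin (7 * n + 6), v.1 ≤ k → (T n).Reachable v ⟨0, by omega⟩ := by
    intro k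
    induction k with
    | zero =>
      intro v hv
      have : v = ⟨0, by omega⟩ := Fin.ext (by simpa using hv)
      rw [this]
    | succ k ih =>
      intro v hv
      by_cases h : v.1 = 0
      · have : v = ⟨0, by omega⟩ := Fin.ext h
        rw [this]
      · exact (T_adj_par n v h).reachable.trans (ih _ (by have := par_lt h; simp only; omega))
  have : Nonempty (Fin (7 * n + 6)) := ⟨⟨0, by omega⟩⟩
  refine SimpleGraph.Connected.mk ?_
  intro v w
  exact (key _ v le_rfl).trans (key _ w le_rfl).symm

lemma T_isTree (n : ℕ) : (T n).IsTree := by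
  rw [SimpleGraph.isTree_iff_connected_and_card]
  refine ⟨T_connected n, ?_⟩
  have hcard : Nat.card (T n).edgeSet = 7 * n + 5 := by
    have e : Fin (7 * n + 5) ≃ (T n).edgeSet := by
      refine Equiv.ofBijective
        (fun i => ⟨s(i.succ, ⟨par i.succ.1, lt_trans (par_lt (by simp)) i.succ.2⟩),
          T_adj_par n i.succ (by simp)⟩) ⟨?_, ?_⟩
      · intro i j hij
        have h := congrArg Subtype.val hij
        simp only [Sym2.eq_iff] at h
        rcases h with h | h
        · exact Fin.succ_injective _ h.1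
        · exfalso
          have h1 : i.succ.1 = par j.succ.1 := congrArg Fin.val h.1
          have h2 : par i.succ.1 = j.succ.1 := congrArg Fin.val h.2
          have h3 : par i.succ.1 < i.succ.1 := par_lt (by simp)
          have h4 : par j.succ.1 < j.succ.1 := par_lt (by simp)
          omega
      · rintro ⟨e, he⟩
        induction e using Sym2.ind with
        | _ v w =>
          have he' : (T n).Adj v w := he
          rcases he' with h | h
          · refine ⟨⟨w.1 - 1, by omega⟩, ?_⟩
            apply Subtype.ext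
            simp only [Sym2.eq_iff]
            have hw : (⟨w.1 - 1, by omega⟩ : Fin (7 * n + 5)).succ = w := by
              apply Fin.ext; simp; omega
            right
            refine ⟨hw, ?_⟩
            apply Fin.ext
            simp only
            rw [hw, ← h.1]
          · refine ⟨⟨v.1 - 1, by omega⟩, ?_⟩
            apply Subtype.ext
            simp only [Sym2.eq_iff]
            have hw : (⟨v.1 - 1, by omega⟩ : Fin (7 * n + 5)).succ = v := by
              apply Fin.ext; simp; omega
            left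
            refine ⟨hw, ?_⟩
            apply Fin.ext
            simp only
            rw [hw, ← h.1]
    rw [← Nat.card_congr e]
    simp
  rw [hcard]
  simp

/-- the members of the packing: the leaves `7 i + 4`, `7 i + 5` and the vertices `7 i + 6` -/
lemma gamma_lower (n : ℕ) : 3 * n + 2 ≤ gammaNum (T n) := by
  apply le_csInf
  · exact ⟨_, Finset.univ, fun w => ⟨w, Finset.mem_univ _, Or.inl rfl⟩, rfl⟩
  rintro k ⟨D, hD, rfl⟩
  choose f hf using hD
  let P : Fin (3 * n + 2) → Fin (7 * n + 6) := fun i =>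
    ⟨7 * (i.1 / 3) + 4 + i.1 % 3, by have := i.2; omega⟩
  have hinj : Function.Injective (fun i => f (P i)) := by
    intro i j hij
    simp only at hij
    have h1 := (hf (P i)).2
    have h2 := (hf (P j)).2
    rw [← hij] at h2
    generalize f (P i) = d at h1 h2
    apply Fin.ext
    have e1 : (P i).1 = 7 * (i.1 / 3) + 4 + i.1 % 3 := rfl
    have e2 : (P j).1 = 7 * (j.1 / 3) + 4 + j.1 % 3 := rfl
    have hi := i.2
    have hj := j.2
    have hd := d.2
    generalize P i = a at h1 e1
    generalize P j = b at h2 e2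
    rcases h1 with h1 | h1 | h1 <;> rcases h2 with h2 | h2 | h2
    all_goals
      first
      | (rw [h1] at e1; rw [h2] at e2; omega)
      | (rw [h1] at e1; unfold par at h2; split_ifs at h2 <;> omega)
      | (rw [h2] at e2; unfold par at h1; split_ifs at h1 <;> omega)
      | (unfold par at h1 h2; split_ifs at h1 h2 <;> omega)
  have := Finset.card_le_card_of_injOn (s := Finset.univ) (t := D) (fun i => f (P i))
    (fun i _ => (hf (P i)).1) hinj.injOn
  simpa using this

/-- the spine vertices `7 i`, `7 i + 1` -/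
def S (n : ℕ) : Finset (Fin (7 * n + 6)) := Finset.univ.filter fun v => v.1 % 7 ≤ 1

lemma mem_S {n : ℕ} {v : Fin (7 * n + 6)} : v ∈ S n ↔ v.1 % 7 ≤ 1 := by simp [S]

lemma S_card_le (n : ℕ) : (S n).card ≤ 2 * (n + 1) := by
  let g : Fin (2 * (n + 1)) → Fin (7 * n + 6) := fun i =>
    ⟨7 * (i.1 / 2) + i.1 % 2, by have := i.2; omega⟩
  have hsub : S n ⊆ Finset.univ.image g := by
    intro v hv
    rw [mem_S] at hv
    refine Finset.mem_image.2 ⟨⟨2 * (v.1 / 7) + v.1 % 7, by have := v.2; omega⟩,
      Finset.mem_univ _, ?_⟩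
    apply Fin.ext
    simp only [g]
    omega
  calc (S n).card ≤ (Finset.univ.image g).card := Finset.card_le_card hsub
    _ ≤ (Finset.univ : Finset (Fin (2 * (n + 1)))).card := Finset.card_image_le
    _ = 2 * (n + 1) := by simp

/-- A neighbour of the spine vertex `v` other than `v + 2` is not private for `v`. -/
lemma not_private {n : ℕ} {v x : Fin (7 * n + 6)} (hv : v ∈ S n) (hx : InNbhd (T n) v x)
    (hne : x.1 ≠ v.1 + 2) : ∃ u ∈ S n, u ≠ v ∧ InNbhd (T n) u x := by
  rw [mem_S] at hv
  have hvlt := v.2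
  have hxlt := x.2
  -- the candidates
  have main : ∃ u : ℕ, u < 7 * n + 6 ∧ u % 7 ≤ 1 ∧ u ≠ v.1 ∧
      (x.1 = u ∨ (u = par x.1 ∧ u < x.1) ∨ (x.1 = par u ∧ x.1 < u)) := by
    rcases hx with hx | hx | hx
    · -- `x = v`
      have hx' : x.1 = v.1 := congrArg Fin.val hx
      by_cases h0 : v.1 % 7 = 0
      · refine ⟨v.1 + 1, by omega, by omega, by omega, Or.inr (Or.inr ?_)⟩
        unfold par
        split_ifs <;> omega
      · refine ⟨v.1 - 1, by omega, by omega, by omega, Or.inr (Or.inl ?_)⟩
        unfold par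
        split_ifs <;> omega
    · -- `v` is the parent of `x`
      by_cases h1 : x.1 % 7 ≤ 1
      · exact ⟨x.1, hxlt, h1, by omega, Or.inl rfl⟩
      · by_cases h6 : x.1 % 7 = 6
        · refine ⟨x.1 + 1, by omega, by omega, by omega, Or.inr (Or.inr ?_)⟩
          unfold par
          split_ifs <;> omega
        · exfalso
          unfold par at hx
          split_ifs at hx
          omega
    · -- `x` is the parent of `v`
      by_cases h1 : x.1 % 7 ≤ 1
      · exact ⟨x.1, hxlt, h1, by omega, Or.inl rfl⟩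
      · unfold par at hx
        split_ifs at hx
        refine ⟨x.1 - 5, by omega, by omega, by omega, Or.inr (Or.inl ?_)⟩
        unfold par
        split_ifs <;> omega
  obtain ⟨u, hu, hu7, huv, h⟩ := main
  refine ⟨⟨u, hu⟩, mem_S.2 hu7, fun h' => huv (congrArg Fin.val h'), ?_⟩
  rcases h with h | h | h
  · exact Or.inl (Fin.ext h)
  · exact Or.inr (Or.inl h)
  · exact Or.inr (Or.inr h)

lemma S_irredundant (n : ℕ) : Irredundant (T n) (S n) := by
  intro v hv
  rw [mem_S] at hv
  have hvlt := v.2
  refine ⟨⟨v.1 + 2, by omega⟩, Or.inr (Or.inl ?_), ?_⟩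
  · simp only
    unfold par
    split_ifs <;> omega
  · intro u hu huv hn
    rw [mem_S] at hu
    have huv' : u.1 ≠ v.1 := fun h => huv (Fin.ext h)
    rcases hn with h | h | h
    · have h' : v.1 + 2 = u.1 := congrArg Fin.val h
      omega
    · simp only at h
      unfold par at h
      split_ifs at h <;> omega
    · simp only at h
      unfold par at h
      split_ifs at h <;> omega

lemma S_maximal (n : ℕ) : MaximalIrredundant (T n) (S n) := by
  refine ⟨S_irredundant n, ?_⟩
  intro S' hS' hirr
  obtain ⟨w, hwS', hwS⟩ := Finset.exists_of_ssubset hS'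
  have hw7 : ¬ w.1 % 7 ≤ 1 := fun h => hwS (mem_S.2 h)
  have hwlt := w.2
  have hsub := hS'.1
  by_cases h6 : w.1 % 7 = 6
  · obtain ⟨x, hx, hpriv⟩ := hirr w hwS'
    have hxlt := x.2
    rcases hx with hx | hx | hx
    · -- `x = w` is dominated by `w - 5`
      refine hpriv ⟨w.1 - 5, by omega⟩ (hsub (mem_S.2 (by simp only; omega))) ?_ ?_
      · intro h
        have := congrArg Fin.val h
        simp only at this
        omega
      · refine Or.inr (Or.inl ?_)
        have hx' : x.1 = w.1 := congrArg Fin.val hx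
        simp only
        unfold par
        split_ifs <;> omega
    · -- `w` is the parent of `x`
      have hx1 : x.1 % 7 ≤ 1 := by
        unfold par at hx
        split_ifs at hx <;> omega
      refine hpriv x (hsub (mem_S.2 hx1)) ?_ (Or.inl rfl)
      intro h
      rw [h] at hx1
      exact hw7 hx1
    · have hx1 : x.1 % 7 ≤ 1 := by
        unfold par at hx
        split_ifs at hx; omega
      refine hpriv x (hsub (mem_S.2 hx1)) ?_ (Or.inl rfl)
      intro h
      rw [h] at hx1
      exact hw7 hx1
  · -- the spine vertex `v` of the pendant path through `w`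
    have hv : ∃ v : Fin (7 * n + 6), v ∈ S n ∧ (w.1 = v.1 + 2 ∨ w.1 = v.1 + 4) := by
      by_cases h3 : w.1 % 7 ≤ 3
      · exact ⟨⟨w.1 - 2, by omega⟩, mem_S.2 (by simp only; omega), Or.inl (by simp only; omega)⟩
      · exact ⟨⟨w.1 - 4, by omega⟩, mem_S.2 (by simp only; omega), Or.inr (by simp only; omega)⟩
    obtain ⟨v, hvS, hwv⟩ := hv
    obtain ⟨x, hx, hpriv⟩ := hirr v (hsub hvS)
    by_cases hxe : x.1 = v.1 + 2
    · have hv7 := mem_S.1 hvS
      refine hpriv w hwS' ?_ ?_
      · intro h
        rw [h] at hw7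
        exact hw7 hv7
      · rcases hwv with h | h
        · exact Or.inl (Fin.ext (by omega))
        · refine Or.inr (Or.inr ?_)
          unfold par
          split_ifs <;> omega
    · obtain ⟨u, hu, huv, hux⟩ := not_private hvS hx hxe
      exact hpriv u (hsub hu) huv hux

lemma irNum_le (n : ℕ) : irNum (T n) ≤ 2 * (n + 1) := by
  refine le_trans ?_ (S_card_le n)
  unfold irNum
  apply Nat.sInf_le
  exact ⟨S n, S_maximal n, rfl⟩

/-- **Main result.** It is not true that `5 / 4` is the maximum of `γ(T) / ir(T)` over all trees;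
moreover for each `c < 3 / 2` there is a tree `T` with `γ(T) > c · ir(T)`. -/
theorem result :
    (¬ IsGreatest {r : ℝ | ∃ (N : ℕ) (G : SimpleGraph (Fin N)), G.IsTree ∧
        r = (gammaNum G : ℝ) / (irNum G : ℝ)} (5 / 4)) ∧
      ∀ c : ℝ, c < 3 / 2 → ∃ (N : ℕ) (G : SimpleGraph (Fin N)), G.IsTree ∧ 0 < irNum G ∧
        c * (irNum G : ℝ) < (gammaNum G : ℝ) := by
  have hpos : ∀ n, 0 < irNum (T n) := by
    intro n
    rw [Nat.pos_iff_ne_zero]
    intro h0
    have hne : {k | ∃ S : Finset (Fin (7 * n + 6)), MaximalIrredundant (T n) S ∧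
        S.card = k}.Nonempty := ⟨_, S n, S_maximal n, rfl⟩
    obtain ⟨D, hD, hD0⟩ := Nat.sInf_mem hne
    have hD0' : D.card = 0 := by
      rw [hD0]; exact h0
    rw [Finset.card_eq_zero] at hD0'
    subst hD0'
    refine hD.2 ({(⟨0, by omega⟩ : Fin (7 * n + 6))} : Finset (Fin (7 * n + 6))) ?_ ?_
    · simp
    · intro v hv
      refine ⟨v, Or.inl rfl, ?_⟩
      intro u hu huv
      rw [Finset.mem_singleton] at hu hv
      exact absurd (hu.trans hv.symm) huv
  have hmain : ∀ c : ℝ, c < 3 / 2 → ∃ (N : ℕ) (G : SimpleGraph (Fin N)), G.IsTree ∧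
      0 < irNum G ∧ c * (irNum G : ℝ) < (gammaNum G : ℝ) := by
    intro c hc
    obtain ⟨n, hn⟩ := exists_nat_gt (2 / (3 - 2 * c))
    have h32 : 0 < 3 - 2 * c := by linarith
    rw [div_lt_iff₀ h32] at hn
    refine ⟨_, T n, T_isTree n, hpos n, ?_⟩
    have h1 : (irNum (T n) : ℝ) ≤ 2 * ((n : ℝ) + 1) := by exact_mod_cast irNum_le n
    have h2 : 3 * (n : ℝ) + 2 ≤ (gammaNum (T n) : ℝ) := by exact_mod_cast gamma_lower n
    have h3 : (0 : ℝ) < (irNum (T n) : ℝ) := by exact_mod_cast hpos n
    have hn0 : (0 : ℝ) ≤ (n : ℝ) := Nat.cast_nonneg n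
    by_cases h : c ≤ 0
    · have : c * (irNum (T n) : ℝ) ≤ 0 := mul_nonpos_of_nonpos_of_nonneg h h3.le
      linarith
    · push Not at h
      have h4 : c * (irNum (T n) : ℝ) ≤ c * (2 * ((n : ℝ) + 1)) :=
        mul_le_mul_of_nonneg_left h1 h.le
      nlinarith
  refine ⟨?_, hmain⟩
  intro hgr
  obtain ⟨N, G, hG, hGpos, hlt⟩ := hmain (5 / 4) (by norm_num)
  have hGpos' : (0 : ℝ) < (irNum G : ℝ) := by exact_mod_cast hGpos
  have := hgr.2 ⟨N, G, hG, rfl⟩
  rw [div_le_iff₀ hGpos'] at this
  linarith

end Pool.Agent.Results.MP_180bcc_co.RatioThreeHalves
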